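import Mathlib

/-!
# The sequence `(1 + k + k^2) / k!` is not a complex zero decreasing sequence

The counterexample: let `q(x) = ∑_{k ≤ 50} (-1)^k C(51, k+1) x^k / k!` (a Laguerre polynomial
`L_50^{(1)}`), `h = q^2 + 1`, which has no real zero, and let `f` be the real polynomial of degree
`100` that the sequence maps to `h`. Then `f(0) > 0 > f(1)`, so `f` has a real zero, and `f` has
fewer non-real zeros than its image `h`.
-/

namespace Pool.Agent.Results.MP_664f87_an.NotCZDS

open Polynomial

/-- The number of non-real zeros of the real polynomial `f`, counted with multiplicity. -/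
noncomputable def Zc (f : ℝ[X]) : ℕ :=
  Multiset.card ((f.map (algebraMap ℝ ℂ)).roots.filter (fun z => z.im ≠ 0))

/-- The action of the real sequence `γ` on real polynomials:
`∑ a_k x^k ↦ ∑ γ_k a_k x^k`. -/
noncomputable def act (γ : ℕ → ℝ) (f : ℝ[X]) : ℝ[X] :=
  ∑ k ∈ Finset.range (f.natDegree + 1), monomial k (γ k * f.coeff k)

/-- `γ` is a complex zero decreasing sequence. -/
def IsCZDS (γ : ℕ → ℝ) : Prop := ∀ f : ℝ[X], Zc (act γ f) ≤ Zc f

theorem coeff_act (γ : ℕ → ℝ) (f : ℝ[X]) (n : ℕ) : (act γ f).coeff n = γ n * f.coeff n := by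
  classical
  unfold act
  rw [finsetSum_coeff]
  simp only [coeff_monomial]
  rw [Finset.sum_ite_eq']
  split_ifs with h
  · rfl
  · rw [Finset.mem_range, not_lt] at h
    rw [coeff_eq_zero_of_natDegree_lt (by omega), mul_zero]

theorem act_act (γ δ : ℕ → ℝ) (h : ∀ n, γ n * δ n = 1) (f : ℝ[X]) : act γ (act δ f) = f := by
  ext n
  rw [coeff_act, coeff_act, ← mul_assoc, h, one_mul]

/-- The reciprocal sequence. -/
noncomputable def lam (n : ℕ) : ℝ := (n.factorial : ℝ) / (1 + n + n ^ 2)

theorem lam_pos (n : ℕ) : 0 < lam n := by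
  unfold lam
  positivity

/-- The coefficients of the polynomial `q`. -/
def qc (k : ℕ) : ℚ := (-1) ^ k * (Nat.choose 51 (k + 1) : ℚ) / (k.factorial : ℚ)

/-- The rational version of `lam`. -/
def lamQ (n : ℕ) : ℚ := (n.factorial : ℚ) / (1 + n + n ^ 2)

theorem lamQ_cast (n : ℕ) : ((lamQ n : ℚ) : ℝ) = lam n := by
  unfold lamQ lam
  push_cast
  rfl

noncomputable def q : ℝ[X] := ∑ k ∈ Finset.range 51, monomial k ((qc k : ℚ) : ℝ)

set_option maxRecDepth 100000 in
theorem key_sum : (∑ i ∈ Finset.range 51, ∑ j ∈ Finset.range 51,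
    lamQ (i + j) * (qc i * qc j)) < -1 := by
  decide +kernel

/-- The linear functional `p ↦ (act lam p)(1)`. -/
theorem eval_one_act (p : ℝ[X]) : (act lam p).eval 1 = p.sum (fun n a => lam n * a) := by
  rw [Polynomial.sum_over_range' p (by simp) (p.natDegree + 1) (Nat.lt_succ_self _)]
  unfold act
  rw [eval_finsetSum]
  simp

theorem sum_lam_q_sq : (q ^ 2).sum (fun n a => lam n * a) < -1 := by
  have h1 : q ^ 2 = ∑ i ∈ Finset.range 51, ∑ j ∈ Finset.range 51,
      monomial (i + j) (((qc i * qc j : ℚ) : ℝ)) := by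
    rw [pow_two, q, Finset.sum_mul_sum]
    refine Finset.sum_congr rfl (fun i _ => Finset.sum_congr rfl (fun j _ => ?_))
    rw [monomial_mul_monomial]
    push_cast
    rfl
  let Φ : ℝ[X] →ₗ[ℝ] ℝ := Polynomial.lsum (fun n => lam n • LinearMap.id)
  have hΦ : ∀ p, Φ p = p.sum (fun n a => lam n * a) := by
    intro p
    simp [Φ, Polynomial.lsum_apply]
  rw [← hΦ, h1]
  simp only [map_sum]
  simp only [hΦ]
  have h2 : ∀ i j : ℕ, (monomial (i + j) (((qc i * qc j : ℚ) : ℝ))).sum (fun n a => lam n * a) =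
      ((lamQ (i + j) * (qc i * qc j) : ℚ) : ℝ) := by
    intro i j
    rw [Polynomial.sum_monomial_index _ _ (by simp)]
    push_cast
    rw [lamQ_cast]
  simp only [h2]
  have := key_sum
  exact_mod_cast this

theorem eval_map_ofReal (p : ℝ[X]) (r : ℝ) :
    (p.map (algebraMap ℝ ℂ)).eval ((r : ℝ) : ℂ) = ((p.eval r : ℝ) : ℂ) := by
  rw [eval_map]
  exact eval₂_at_apply (algebraMap ℝ ℂ) r

/-- The sequence `(1 + k + k^2) / k!` is not a complex zero decreasing sequence. -/
theorem result : ¬ IsCZDS (fun k => (1 + (k : ℝ) + (k : ℝ) ^ 2) / (k.factorial : ℝ)) := by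
  intro hcz
  set γ : ℕ → ℝ := fun k => (1 + (k : ℝ) + (k : ℝ) ^ 2) / (k.factorial : ℝ) with hγ
  have hγlam : ∀ n, γ n * lam n = 1 := by
    intro n
    have h1 : (n.factorial : ℝ) ≠ 0 := by positivity
    have h2 : (1 + (n : ℝ) + (n : ℝ) ^ 2) ≠ 0 := by positivity
    simp only [hγ, lam]
    field_simp
  set h : ℝ[X] := q ^ 2 + 1 with hh
  have hpos : ∀ x : ℝ, 0 < h.eval x := by
    intro x
    rw [hh, eval_add, eval_pow, eval_one]
    positivity
  have hne : h ≠ 0 := by
    intro h0
    have := hpos 0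
    rw [h0, eval_zero] at this
    exact lt_irrefl _ this
  set f : ℝ[X] := act lam h with hf
  have hact : act γ f = h := act_act γ lam hγlam h
  have hfne : f ≠ 0 := by
    intro h0
    apply hne
    rw [← hact, h0]
    simp [act]
  have hdeg : f.natDegree ≤ h.natDegree := by
    rw [natDegree_le_iff_coeff_eq_zero]
    intro N hN
    rw [hf, coeff_act, coeff_eq_zero_of_natDegree_lt hN, mul_zero]
  -- `h` has no real zero
  have hZh : Zc (act γ f) = h.natDegree := by
    rw [hact]
    unfold Zc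
    rw [Multiset.filter_eq_self.mpr]
    · rw [← natDegree_map (algebraMap ℝ ℂ) (p := h)]
      exact (IsAlgClosed.splits (h.map (algebraMap ℝ ℂ))).natDegree_eq_card_roots.symm
    · intro z hz him
      have hz' := (mem_roots'.mp hz).2
      have hzr : z = ((z.re : ℝ) : ℂ) := by
        apply Complex.ext <;> simp [him]
      rw [IsRoot.def, hzr, eval_map_ofReal] at hz'
      have h3 := hpos z.re
      have h4 : h.eval z.re = 0 := by exact_mod_cast hz'
      rw [h4] at h3
      exact lt_irrefl _ h3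
  -- `f` has a real zero
  have hf0 : 0 < f.eval 0 := by
    have h1 : f.eval 0 = lam 0 * h.eval 0 := by
      rw [← coeff_zero_eq_eval_zero, ← coeff_zero_eq_eval_zero, hf, coeff_act]
    rw [h1]
    exact mul_pos (lam_pos 0) (hpos 0)
  have hf1 : f.eval 1 < 0 := by
    rw [hf, eval_one_act, hh]
    rw [Polynomial.sum_add_index _ _ _ (by simp) (by intros; ring)]
    have h1 := sum_lam_q_sq
    have h2 : (1 : ℝ[X]).sum (fun n a => lam n * a) = 1 := by
      rw [← C_1, Polynomial.sum_C_index (by simp)]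
      simp [lam]
    rw [h2]
    linarith
  obtain ⟨r, -, hr⟩ : ∃ r ∈ Set.Icc (0 : ℝ) 1, f.eval r = 0 := by
    have := intermediate_value_Icc' (zero_le_one' ℝ) (f.continuous.continuousOn)
    exact this ⟨hf1.le, hf0.le⟩
  have hZf : Zc f < f.natDegree := by
    unfold Zc
    have hmapne : f.map (algebraMap ℝ ℂ) ≠ 0 := by
      rw [Polynomial.map_ne_zero_iff (algebraMap ℝ ℂ).injective]
      exact hfne
    have hmem : ((r : ℝ) : ℂ) ∈ (f.map (algebraMap ℝ ℂ)).roots := by
      rw [mem_roots hmapne, IsRoot.def, eval_map_ofReal, hr]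
      simp
    have h1 : Multiset.card ((f.map (algebraMap ℝ ℂ)).roots.filter (fun z => z.im ≠ 0)) <
        Multiset.card (f.map (algebraMap ℝ ℂ)).roots := by
      apply Multiset.card_lt_card
      refine lt_of_le_of_ne (Multiset.filter_le _ _) ?_
      intro heq
      have hmem' := hmem
      rw [← heq, Multiset.mem_filter] at hmem'
      exact hmem'.2 (by simp)
    have h2 : Multiset.card (f.map (algebraMap ℝ ℂ)).roots ≤ f.natDegree := by
      rw [← natDegree_map (algebraMap ℝ ℂ) (p := f)]
      exact card_roots' _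
    omega
  have h5 := hcz f
  rw [hZh] at h5
  omega

end Pool.Agent.Results.MP_664f87_an.NotCZDS
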